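import Pool.Agent.L0h57.PQ.Wm
import Pool.Agent.Helper602.MK.J7

set_option autoImplicit false

/-!
# Equations with one variable from a set of odd integers with small exponential sums, and values of polynomials
-/

namespace Pool.Agent.L0h57.PQ
open Finset Polynomial
open Pool.Agent.Helper602.MK (ee)
open Pool.Agent.Helper602.MK.N_J5b (ee_add ee_zero ee_conj norm_ee ee_int)

theorem pars_eq {ι : Type*} (I : Finset ι) (x : ι → ℝ) (u : ι → ℤ) (M : ℕ) (hM : 0 < M)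
    (hu : ∀ i ∈ I, ∀ j ∈ I, |u i - u j| < M) :
    ∑ τ ∈ range M, ‖∑ i ∈ I, (x i : ℂ) * ee ((τ : ℝ) * u i / M)‖ ^ 2 =
      M * ∑ i ∈ I, ∑ j ∈ I, if u i = u j then x i * x j else 0 := by
  have h1 : ∀ τ : ℕ, ((‖∑ i ∈ I, (x i : ℂ) * ee ((τ : ℝ) * u i / M)‖ ^ 2 : ℝ) : ℂ) =
      ∑ i ∈ I, ∑ j ∈ I, ((x i * x j : ℝ) : ℂ) * ee ((τ : ℝ) * ((u i - u j : ℤ) : ℝ) / M) := by
    intro τ
    rw [← Complex.normSq_eq_norm_sq, ← Complex.mul_conj, map_sum, sum_mul_sum]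
    refine sum_congr rfl fun i _ => sum_congr rfl fun j _ => ?_
    rw [map_mul, Complex.conj_ofReal, ee_conj]
    have h2 : ee ((τ : ℝ) * ((u i - u j : ℤ) : ℝ) / M) =
        ee ((τ : ℝ) * u i / M) * ee (-((τ : ℝ) * u j / M)) := by
      rw [← ee_add]
      congr 1
      push_cast
      ring
    rw [h2]
    push_cast
    ring
  have h2 : ((∑ τ ∈ range M, ‖∑ i ∈ I, (x i : ℂ) * ee ((τ : ℝ) * u i / M)‖ ^ 2 : ℝ) : ℂ) =
      ((M * ∑ i ∈ I, ∑ j ∈ I, if u i = u j then x i * x j else 0 : ℝ) : ℂ) := by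
    rw [Complex.ofReal_sum]
    rw [sum_congr rfl fun τ _ => h1 τ, sum_comm, Complex.ofReal_mul, Complex.ofReal_sum, mul_sum]
    refine sum_congr rfl fun i hi => ?_
    rw [sum_comm, Complex.ofReal_sum, mul_sum]
    refine sum_congr rfl fun j hj => ?_
    rw [← mul_sum, Pool.Agent.Helper602.MK.N_J7.orth M hM (u i - u j) (hu i hi j hj)]
    by_cases h : u i = u j
    · rw [if_pos h, if_pos (by omega)]
      push_cast
      ring
    · rw [if_neg h, if_neg (by omega)]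
      simp
  exact_mod_cast h2

theorem sq_le {ι : Type*} (I : Finset ι) (x : ι → ℝ) (u : ι → ℤ) (T : Finset ℤ) :
    ∑ n ∈ T, (∑ i ∈ I, if u i = n then x i else 0) ^ 2 ≤
      ∑ i ∈ I, ∑ j ∈ I, if u i = u j then x i * x j else 0 := by
  classical
  calc _ ≤ ∑ n ∈ T ∪ I.image u, (∑ i ∈ I, if u i = n then x i else 0) ^ 2 :=
        sum_le_sum_of_subset_of_nonneg subset_union_left (fun _ _ _ => sq_nonneg _)
    _ = ∑ i ∈ I, ∑ j ∈ I, if u i = u j then x i * x j else 0 := by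
      simp_rw [sq, sum_mul_sum]
      rw [sum_comm]
      refine sum_congr rfl fun i hi => ?_
      rw [sum_comm]
      refine sum_congr rfl fun j hj => ?_
      have hi' : u i ∈ T ∪ I.image u := mem_union_right _ (mem_image_of_mem u hi)
      rw [sum_eq_single (u i)]
      · by_cases h : u i = u j
        · simp [h]
        · have h' : ¬ (u j = u i) := fun h' => h h'.symm
          simp [h, h']
      · intro n _ hn
        rw [if_neg (fun h => hn h.symm), zero_mul]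
      · intro h
        exact absurd hi' h

theorem split (M : ℕ) (A B : ℕ → ℝ) (p : ℕ) (e η S C : ℝ) (hη : 0 < η) (he : 0 ≤ e)
    (hA0 : ∀ τ ∈ range M, 0 ≤ A τ) (hAe : ∀ τ ∈ range M, A τ ≤ e) (hB0 : ∀ τ ∈ range M, 0 ≤ B τ)
    (hB1 : ∀ τ ∈ range M, B τ ≤ 1) (hS : ∑ τ ∈ range M, A τ ^ 2 ≤ S) (hC : ∑ τ ∈ range M, B τ ^ p ≤ C) :
    ∑ τ ∈ range M, A τ ^ 2 * B τ ^ 2 ≤ η ^ 2 * S + e ^ 2 * (C / η ^ p) := by
  have hηp : 0 < η ^ p := by positivity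
  have h : ∀ τ ∈ range M, A τ ^ 2 * B τ ^ 2 ≤ η ^ 2 * A τ ^ 2 + e ^ 2 * (B τ ^ p / η ^ p) := by
    intro τ hτ
    have hb0 := hB0 τ hτ
    have h3 : 0 ≤ e ^ 2 * (B τ ^ p / η ^ p) := by positivity
    by_cases hb : B τ ≤ η
    · have h2 : B τ ^ 2 ≤ η ^ 2 := pow_le_pow_left₀ hb0 hb 2
      have := mul_le_mul_of_nonneg_left h2 (sq_nonneg (A τ))
      linarith
    · push Not at hb
      have h2 : 1 ≤ B τ ^ p / η ^ p := by
        rw [le_div_iff₀ hηp, one_mul]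
        exact pow_le_pow_left₀ hη.le hb.le p
      have h4 : A τ ^ 2 * B τ ^ 2 ≤ e ^ 2 * 1 :=
        mul_le_mul (pow_le_pow_left₀ (hA0 τ hτ) (hAe τ hτ) 2) (pow_le_one₀ hb0 (hB1 τ hτ)) (by positivity)
          (by positivity)
      have h5 : e ^ 2 * 1 ≤ e ^ 2 * (B τ ^ p / η ^ p) := mul_le_mul_of_nonneg_left h2 (sq_nonneg e)
      have h6 : 0 ≤ η ^ 2 * A τ ^ 2 := by positivity
      linarith
  calc _ ≤ ∑ τ ∈ range M, (η ^ 2 * A τ ^ 2 + e ^ 2 * (B τ ^ p / η ^ p)) := sum_le_sum h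
    _ = η ^ 2 * ∑ τ ∈ range M, A τ ^ 2 + e ^ 2 * ((∑ τ ∈ range M, B τ ^ p) / η ^ p) := by
      rw [sum_add_distrib, ← mul_sum, ← mul_sum, ← sum_div]
    _ ≤ _ := by
      apply add_le_add
      · exact mul_le_mul_of_nonneg_left hS (sq_nonneg _)
      · apply mul_le_mul_of_nonneg_left _ (sq_nonneg _)
        exact div_le_div_of_nonneg_right hC hηp.le

theorem eval_bd (f : ℤ[X]) : ∃ A : ℕ, ∀ k K : ℕ, 1 ≤ k → k ≤ K → |f.eval (k : ℤ)| ≤ A * (K : ℤ) ^ f.natDegree := by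
  refine ⟨∑ i ∈ range (f.natDegree + 1), (f.coeff i).natAbs, fun k K hk hK => ?_⟩
  rw [eval_eq_sum_range]
  push_cast
  rw [sum_mul]
  refine (abs_sum_le_sum_abs _ _).trans (sum_le_sum fun i hi => ?_)
  rw [abs_mul, abs_pow]
  apply mul_le_mul_of_nonneg_left _ (abs_nonneg _)
  have h1 : |(k : ℤ)| = k := abs_of_nonneg (by positivity)
  rw [h1]
  have h2 : (k : ℤ) ^ i ≤ (K : ℤ) ^ i := pow_le_pow_left₀ (by positivity) (by exact_mod_cast hK) i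
  refine h2.trans (pow_le_pow_right₀ ?_ ?_)
  · have : 1 ≤ K := hk.trans hK
    exact_mod_cast this
  · rw [mem_range] at hi
    omega

/-- the odd (or other) integers with small exponential sums: `g N m` is a function of `m ∈ O N`, `O N ⊆ [1, N]` -/
structure Small (O : ℕ → Finset ℕ) (g : ℕ → ℕ → ℝ) (D : ℝ) : Prop where
  sub : ∀ N, O N ⊆ Icc 1 N
  bd : ∀ N m, |g N m| ≤ D
  small : ∀ ε : ℝ, 0 < ε → ∃ N₀ : ℕ, ∀ N : ℕ, N₀ ≤ N → ∀ α : ℝ, ‖∑ m ∈ O N, (g N m : ℂ) * ee (α * m)‖ ≤ ε * N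

/-- the exponential sum over the values of the polynomial -/
noncomputable def Fs (f : ℤ[X]) (K : ℕ) (t M : ℕ) : ℂ := ∑ n ∈ Icc 1 K, ee ((t : ℝ) * ((f.eval (n : ℤ) : ℤ) : ℝ) / M)

theorem Fs_le (f : ℤ[X]) (K t M : ℕ) : ‖Fs f K t M‖ ≤ K := by
  unfold Fs
  refine (norm_sum_le _ _).trans ?_
  simp [norm_ee]

theorem ms {f : ℤ[X]} (hd : 1 ≤ f.natDegree) (hl : 0 < f.leadingCoeff) {a : ℤ} (ha : a ≠ 0) {O : ℕ → Finset ℕ}
    {g : ℕ → ℕ → ℝ} {D : ℝ} (h : Small O g D) (B : ℕ) (ε : ℝ) (hε : 0 < ε) :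
    ∃ N₀ : ℕ, ∀ N K : ℕ, N₀ ≤ N → N ≤ B * K ^ f.natDegree → ∀ T : Finset ℤ,
      ∑ n ∈ T, (∑ i ∈ O N ×ˢ Icc 1 K, if a * (i.1 : ℤ) + f.eval (i.2 : ℤ) = n then g N i.1 else 0) ^ 2 ≤
        ε * N * K ^ 2 := by
  obtain ⟨p, hp, hmom⟩ := weyl_moment f hd hl
  obtain ⟨A, hA⟩ := eval_bd f
  obtain ⟨B', hB'⟩ : ∃ B' : ℕ, B' = B + a.natAbs * B + 2 * A + 1 := ⟨_, rfl⟩
  obtain ⟨C, hC0, hC⟩ := hmom B' (by omega)
  have hD0 : 0 ≤ D := (abs_nonneg _).trans (h.bd 0 0)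
  -- the choice of `η` and `e`
  obtain ⟨η, hη, hη2⟩ : ∃ η : ℝ, 0 < η ∧ η ^ 2 * (D ^ 2 + 1) ≤ ε / 2 := by
    refine ⟨√(ε / 2 / (D ^ 2 + 1)), by positivity, ?_⟩
    rw [Real.sq_sqrt (by positivity)]
    rw [div_mul_cancel₀ _ (by positivity)]
  have hηp : 0 < η ^ p := by positivity
  obtain ⟨e, he, he2⟩ : ∃ e : ℝ, 0 < e ∧ e ^ 2 * (C / η ^ p) ≤ ε / 2 := by
    refine ⟨√(ε / 2 / (C / η ^ p)), by positivity, ?_⟩
    rw [Real.sq_sqrt (by positivity)]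
    rw [div_mul_cancel₀ _ (by positivity)]
  obtain ⟨N₁, hN₁⟩ := h.small e he
  refine ⟨max N₁ 1, fun N K hN hNK T => ?_⟩
  have hN1 : 1 ≤ N := (le_max_right _ _).trans hN
  have hNr : (0 : ℝ) < N := by exact_mod_cast hN1
  have hK1 : 1 ≤ K := by
    rcases Nat.eq_zero_or_pos K with h0 | h0
    · rw [h0, zero_pow (by omega)] at hNK
      omega
    · exact h0
  have hKr : (0 : ℝ) < K := by exact_mod_cast hK1
  obtain ⟨M, hM⟩ : ∃ M : ℕ, M = B' * K ^ f.natDegree := ⟨_, rfl⟩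
  have hKd : 1 ≤ K ^ f.natDegree := Nat.one_le_pow _ _ hK1
  have hM1 : 1 ≤ M := by
    rw [hM]
    exact Nat.mul_pos (by omega) hKd
  have hMr : (0 : ℝ) < M := by exact_mod_cast hM1
  have hNM : N ≤ M := by
    rw [hM]
    exact hNK.trans (Nat.mul_le_mul_right _ (by omega))
  have hNMr : (N : ℝ) ≤ M := by exact_mod_cast hNM
  -- distances
  have hM' : (M : ℤ) = B * (K : ℤ) ^ f.natDegree + |a| * (B * (K : ℤ) ^ f.natDegree) + 2 * (A * (K : ℤ) ^ f.natDegree) +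
      (K : ℤ) ^ f.natDegree := by
    rw [hM, hB']
    push_cast
    ring
  have hKdz : (1 : ℤ) ≤ (K : ℤ) ^ f.natDegree := by exact_mod_cast hKd
  have hNKz : (N : ℤ) ≤ B * (K : ℤ) ^ f.natDegree := by exact_mod_cast hNK
  have hdist : ∀ i ∈ O N ×ˢ Icc 1 K, ∀ j ∈ O N ×ˢ Icc 1 K,
      |(a * (i.1 : ℤ) + f.eval (i.2 : ℤ)) - (a * (j.1 : ℤ) + f.eval (j.2 : ℤ))| < M := by
    intro i hi j hj
    rw [mem_product] at hi hj
    have hi1 := mem_Icc.1 (h.sub N hi.1)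
    have hj1 := mem_Icc.1 (h.sub N hj.1)
    have hi2 := mem_Icc.1 hi.2
    have hj2 := mem_Icc.1 hj.2
    have g1 := hA _ K hi2.1 hi2.2
    have g2 := hA _ K hj2.1 hj2.2
    have g3 : |a * (i.1 : ℤ) - a * (j.1 : ℤ)| ≤ |a| * (B * (K : ℤ) ^ f.natDegree) := by
      rw [← mul_sub, abs_mul]
      apply mul_le_mul_of_nonneg_left _ (abs_nonneg _)
      rw [abs_le]
      constructor <;> omega
    have g4 : (a * (i.1 : ℤ) + f.eval (i.2 : ℤ)) - (a * (j.1 : ℤ) + f.eval (j.2 : ℤ)) =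
        (a * (i.1 : ℤ) - a * (j.1 : ℤ)) + (f.eval (i.2 : ℤ) - f.eval (j.2 : ℤ)) := by ring
    rw [g4]
    have g5 := abs_add_le (a * (i.1 : ℤ) - a * (j.1 : ℤ)) (f.eval (i.2 : ℤ) - f.eval (j.2 : ℤ))
    have g6 := abs_sub (f.eval (i.2 : ℤ)) (f.eval (j.2 : ℤ))
    have g7 : 0 ≤ (B : ℤ) * (K : ℤ) ^ f.natDegree := by positivity
    omega
  have hdist2 : ∀ i ∈ O N, ∀ j ∈ O N, |a * (i : ℤ) - a * (j : ℤ)| < M := by
    intro i hi j hj
    have hi1 := mem_Icc.1 (h.sub N hi)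
    have hj1 := mem_Icc.1 (h.sub N hj)
    have g3 : |a * (i : ℤ) - a * (j : ℤ)| ≤ |a| * (B * (K : ℤ) ^ f.natDegree) := by
      rw [← mul_sub, abs_mul]
      apply mul_le_mul_of_nonneg_left _ (abs_nonneg _)
      rw [abs_le]
      constructor <;> omega
    have g7 : 0 ≤ (B : ℤ) * (K : ℤ) ^ f.natDegree := by positivity
    have g8 : 0 ≤ (A : ℤ) * (K : ℤ) ^ f.natDegree := by positivity
    omega
  -- Parseval
  have e1 := pars_eq (O N ×ˢ Icc 1 K) (fun i => g N i.1) (fun i => a * (i.1 : ℤ) + f.eval (i.2 : ℤ)) M hM1 hdist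
  have e2 := sq_le (O N ×ˢ Icc 1 K) (fun i => g N i.1) (fun i => a * (i.1 : ℤ) + f.eval (i.2 : ℤ)) T
  have e3 := pars_eq (O N) (fun i => g N i) (fun i => a * (i : ℤ)) M hM1 hdist2
  -- the factorisation
  obtain ⟨G, hG⟩ : ∃ G : ℕ → ℂ, G = fun τ : ℕ => ∑ m ∈ O N, (g N m : ℂ) * ee ((τ : ℝ) * ((a * (m : ℤ) : ℤ) : ℝ) / M) :=
    ⟨_, rfl⟩
  have e4 : ∀ τ : ℕ, ∑ i ∈ O N ×ˢ Icc 1 K, (g N i.1 : ℂ) *
      ee ((τ : ℝ) * ((a * (i.1 : ℤ) + f.eval (i.2 : ℤ) : ℤ) : ℝ) / M) = G τ * Fs f K τ M := by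
    intro τ
    rw [hG, Fs, sum_mul_sum, sum_product]
    refine sum_congr rfl fun m _ => sum_congr rfl fun k _ => ?_
    have h2 : ee ((τ : ℝ) * ((a * (m : ℤ) + f.eval (k : ℤ) : ℤ) : ℝ) / M) =
        ee ((τ : ℝ) * ((a * (m : ℤ) : ℤ) : ℝ) / M) * ee ((τ : ℝ) * ((f.eval (k : ℤ) : ℤ) : ℝ) / M) := by
      rw [← ee_add]
      congr 1
      push_cast
      ring
    rw [h2]
    ring
  have hGe : ∀ τ : ℕ, ‖G τ‖ ≤ e * N := by
    intro τ
    have h1 := hN₁ N ((le_max_left _ _).trans hN) ((τ : ℝ) * a / M)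
    have h2 : G τ = ∑ m ∈ O N, (g N m : ℂ) * ee ((τ : ℝ) * a / M * m) := by
      rw [hG]
      refine sum_congr rfl fun m _ => ?_
      congr 2
      push_cast
      ring
    rw [h2]
    exact h1
  have hG2 : ∑ τ ∈ range M, ‖G τ‖ ^ 2 ≤ M * (N * D ^ 2) := by
    rw [hG]
    refine le_trans (le_of_eq e3) ?_
    apply mul_le_mul_of_nonneg_left _ hMr.le
    have h1 : ∀ i ∈ O N, (∑ j ∈ O N, if a * (i : ℤ) = a * (j : ℤ) then g N i * g N j else 0) ≤ D ^ 2 := by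
      intro i hi
      rw [sum_eq_single i]
      · rw [if_pos rfl, ← sq, ← sq_abs]
        exact pow_le_pow_left₀ (abs_nonneg _) (h.bd N i) 2
      · intro j _ hji
        rw [if_neg]
        intro h2
        have h3 := mul_left_cancel₀ ha h2
        apply hji
        exact_mod_cast h3.symm
      · intro h2
        exact absurd hi h2
    refine (sum_le_sum h1).trans ?_
    rw [sum_const, nsmul_eq_mul]
    apply mul_le_mul_of_nonneg_right _ (sq_nonneg _)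
    have h2 := card_le_card (h.sub N)
    rw [Nat.card_Icc, Nat.add_sub_cancel] at h2
    exact_mod_cast h2
  have hmm := hC K M hK1 hM1 hM.le
  have hsp := split M (fun τ => ‖G τ‖ / N) (fun τ => ‖Fs f K τ M‖ / K) p e η (M * (N * D ^ 2) / N ^ 2) C hη he.le
    (fun τ _ => by positivity) (fun τ _ => by rw [div_le_iff₀ hNr]; exact hGe τ) (fun τ _ => by positivity)
    (fun τ _ => by rw [div_le_iff₀ hKr, one_mul]; exact Fs_le f K τ M)
    (by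
      have : ∑ τ ∈ range M, (‖G τ‖ / N) ^ 2 = (∑ τ ∈ range M, ‖G τ‖ ^ 2) / N ^ 2 := by
        rw [sum_div]
        exact sum_congr rfl fun τ _ => div_pow _ _ _
      rw [this]
      exact div_le_div_of_nonneg_right hG2 (by positivity)) hmm
  have e5 : ∑ τ ∈ range M, ‖G τ * Fs f K τ M‖ ^ 2 =
      (N : ℝ) ^ 2 * K ^ 2 * ∑ τ ∈ range M, (‖G τ‖ / N) ^ 2 * (‖Fs f K τ M‖ / K) ^ 2 := by
    rw [mul_sum]
    refine sum_congr rfl fun τ _ => ?_
    rw [norm_mul]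
    field_simp
  have e6 : (M : ℝ) * ∑ n ∈ T, (∑ i ∈ O N ×ˢ Icc 1 K, if a * (i.1 : ℤ) + f.eval (i.2 : ℤ) = n then g N i.1 else 0) ^ 2 ≤
      (N : ℝ) ^ 2 * K ^ 2 * (η ^ 2 * (M * (N * D ^ 2) / N ^ 2) + e ^ 2 * (C / η ^ p)) := by
    refine (mul_le_mul_of_nonneg_left e2 hMr.le).trans ?_
    rw [← e1, sum_congr rfl fun τ _ => by rw [e4 τ], e5]
    exact mul_le_mul_of_nonneg_left hsp (by positivity)
  have e7 : (N : ℝ) ^ 2 * K ^ 2 * (η ^ 2 * (M * (N * D ^ 2) / N ^ 2) + e ^ 2 * (C / η ^ p)) ≤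
      M * (ε * N * K ^ 2) := by
    have g1 : (N : ℝ) ^ 2 * K ^ 2 * (η ^ 2 * (M * (N * D ^ 2) / N ^ 2)) = M * (N * K ^ 2) * (η ^ 2 * D ^ 2) := by
      field_simp
    have g2 : η ^ 2 * D ^ 2 ≤ ε / 2 := by nlinarith [sq_nonneg η]
    have g3 : (N : ℝ) ^ 2 * K ^ 2 * (e ^ 2 * (C / η ^ p)) ≤ M * (N * K ^ 2) * (ε / 2) := by
      apply mul_le_mul _ he2 (by positivity) (by positivity)
      have : (N : ℝ) ^ 2 * K ^ 2 = N * (N * K ^ 2) := by ring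
      rw [this]
      exact mul_le_mul_of_nonneg_right hNMr (by positivity)
    rw [mul_add, g1]
    have g4 : (M : ℝ) * (N * K ^ 2) * (η ^ 2 * D ^ 2) ≤ M * (N * K ^ 2) * (ε / 2) :=
      mul_le_mul_of_nonneg_left g2 (by positivity)
    have g5 : (M : ℝ) * (ε * N * K ^ 2) = M * (N * K ^ 2) * (ε / 2) + M * (N * K ^ 2) * (ε / 2) := by ring
    rw [g5]
    exact add_le_add g4 g3
  exact le_of_mul_le_mul_left (e6.trans e7) hMr

end Pool.Agent.L0h57.PQ
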