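import Pool.Agent.L0h57.PQ.Two
import Pool.Agent.L0h87.LE.Stm

set_option autoImplicit false

/-!
# Equations with polynomial terms: the statements in the notation of `Pool.Agent.L0h87.LE`
-/

namespace Pool.Agent.L0h57.PQ
open Finset Polynomial
open Pool.Agent.L0h87.LE (odds S)

/-- the solutions of `a m + f(k) = n` in odd `m ≤ N` and `k ≤ K` -/
def solA (f : ℤ[X]) (a : ℤ) (N K : ℕ) (n : ℤ) : Finset (ℕ × ℕ) :=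
  (odds N ×ˢ Icc 1 K).filter (fun z => a * (z.1 : ℤ) + f.eval (z.2 : ℤ) = n)

/-- the solutions of `a m₁ + b m₂ + f(k) = n` in odd `m₁, m₂ ≤ N` and `k ≤ K` -/
def solB (f : ℤ[X]) (a b : ℤ) (N K : ℕ) (n : ℤ) : Finset ((ℕ × ℕ) × ℕ) :=
  ((odds N ×ˢ odds N) ×ˢ Icc 1 K).filter (fun z => a * (z.1.1 : ℤ) + b * (z.1.2 : ℤ) + f.eval (z.2 : ℤ) = n)

/-- the solutions of `a m + f(k₁) + ... + f(k_t) = n` in odd `m ≤ N` and `k_j ≤ K` -/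
def solC (f : ℤ[X]) (t : ℕ) (a : ℤ) (N K : ℕ) (n : ℤ) : Finset (ℕ × (Fin t → ℕ)) :=
  (odds N ×ˢ Fintype.piFinset (fun _ : Fin t => Icc 1 K)).filter
    (fun z => a * (z.1 : ℤ) + ∑ j, f.eval (z.2 j : ℤ) = n)

/-- small exponential sums and boundedness -/
def Good (W : ℕ → ℕ → ℝ) (V : ℝ) : Prop := (∃ B : ℝ, ∀ N m, |W N m| ≤ B) ∧
  ∀ ε : ℝ, 0 < ε → ∃ N₀ : ℕ, ∀ N : ℕ, N₀ ≤ N → ∀ α : ℝ, ‖S (fun m => W N m - V) N α‖ ≤ ε * N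

theorem Good.small {W : ℕ → ℕ → ℝ} {V : ℝ} (h : Good W V) : ∃ D, Small odds (fun N m => W N m - V) D := by
  obtain ⟨⟨B, hB⟩, hS⟩ := h
  refine ⟨B + |V|, fun N => ?_, fun N m => (abs_sub _ _).trans (add_le_add (hB N m) le_rfl), fun ε hε => ?_⟩
  · unfold Pool.Agent.L0h87.LE.odds
    exact filter_subset _ _
  · obtain ⟨N₀, h₀⟩ := hS ε hε
    refine ⟨N₀, fun N hN α => ?_⟩
    have h1 := h₀ N hN α
    unfold Pool.Agent.L0h87.LE.S at h1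
    have e : ∀ t : ℝ, Pool.Agent.L0h87.LE.ee t = Pool.Agent.Helper602.MK.ee t := by
      intro t
      unfold Pool.Agent.L0h87.LE.ee Pool.Agent.Helper602.MK.ee
      congr 1
      ring
    simp_rw [e] at h1
    exact h1

/-- MEAN SQUARES: `a m + f(k) = n`, for almost all `n` -/
theorem meanSquare {W : ℕ → ℕ → ℝ} {V : ℝ} (h : Good W V) {f : ℤ[X]} (hd : 1 ≤ f.natDegree)
    (hl : 0 < f.leadingCoeff) {a : ℤ} (ha : a ≠ 0) (B : ℕ) (ε : ℝ) (hε : 0 < ε) :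
    ∃ N₀ : ℕ, ∀ N K : ℕ, N₀ ≤ N → N ≤ B * K ^ f.natDegree → ∀ T : Finset ℤ,
      ∑ n ∈ T, (∑ z ∈ solA f a N K n, W N z.1 - V * (solA f a N K n).card) ^ 2 ≤ ε * N * K ^ 2 := by
  obtain ⟨D, hD⟩ := h.small
  obtain ⟨N₀, h₀⟩ := ms hd hl ha hD B ε hε
  refine ⟨N₀, fun N K hN hNK T => le_trans (le_of_eq ?_) (h₀ N K hN hNK T)⟩
  refine sum_congr rfl fun n _ => ?_
  congr 1
  rw [← sum_filter]
  change _ = ∑ z ∈ solA f a N K n, (W N z.1 - V)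
  rw [sum_sub_distrib, sum_const, nsmul_eq_mul]
  ring

/-- TWO ODD VARIABLES AND ONE VALUE OF A POLYNOMIAL: `a m₁ + b m₂ + f(k) = n`, for all `n` -/
theorem twoOdd {W₁ W₂ : ℕ → ℕ → ℝ} {V₁ V₂ : ℝ} (h₁ : Good W₁ V₁) (h₂ : Good W₂ V₂) {f : ℤ[X]}
    (hd : 1 ≤ f.natDegree) (hl : 0 < f.leadingCoeff) {a b : ℤ} (ha : a ≠ 0) (hb : b ≠ 0) (B : ℕ) (ε : ℝ)
    (hε : 0 < ε) :
    ∃ N₀ : ℕ, ∀ N K : ℕ, N₀ ≤ N → N ≤ B * K ^ f.natDegree → ∀ n : ℤ,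
      |∑ z ∈ solB f a b N K n, W₁ N z.1.1 * W₂ N z.1.2 - V₁ * V₂ * (solB f a b N K n).card| ≤ ε * N * K := by
  obtain ⟨D₁, hD₁⟩ := h₁.small
  obtain ⟨D₂, hD₂⟩ := h₂.small
  obtain ⟨N₀, h₀⟩ := two hd hl ha hb hD₁ hD₂ B ε hε
  refine ⟨N₀, fun N K hN hNK n => le_trans (le_of_eq ?_) (h₀ N K hN hNK n)⟩
  congr 1
  rw [← sum_filter]
  change _ = ∑ z ∈ solB f a b N K n, (W₁ N z.1.1 * W₂ N z.1.2 - V₁ * V₂)
  rw [sum_sub_distrib, sum_const, nsmul_eq_mul]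
  ring

/-- ONE ODD VARIABLE AND MANY VALUES OF A POLYNOMIAL: `a m + f(k₁) + ... + f(k_t) = n`, for all `n` -/
theorem manyValues {f : ℤ[X]} (hd : 1 ≤ f.natDegree) (hl : 0 < f.leadingCoeff) :
    ∃ t₀ : ℕ, ∀ t : ℕ, t₀ ≤ t → ∀ (W : ℕ → ℕ → ℝ) (V : ℝ), Good W V → ∀ a : ℤ, ∀ (B : ℕ) (ε : ℝ), 0 < ε →
      ∃ N₀ : ℕ, ∀ N K : ℕ, N₀ ≤ N → N ≤ B * K ^ f.natDegree → ∀ n : ℤ,
      |∑ z ∈ solC f t a N K n, W N z.1 - V * (solC f t a N K n).card| ≤ ε * K ^ t := by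
  obtain ⟨t₀, h⟩ := many hd hl
  refine ⟨t₀, fun t ht W V hW a B ε hε => ?_⟩
  obtain ⟨D, hD⟩ := hW.small
  obtain ⟨N₀, h₀⟩ := h t ht a _ _ D hD B ε hε
  refine ⟨N₀, fun N K hN hNK n => le_trans (le_of_eq ?_) (h₀ N K hN hNK n)⟩
  congr 1
  rw [← sum_filter]
  change _ = ∑ z ∈ solC f t a N K n, (W N z.1 - V)
  rw [sum_sub_distrib, sum_const, nsmul_eq_mul]
  ring

end Pool.Agent.L0h57.PQ
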