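import Pool.Agent.L0h57.PQ.Core

set_option autoImplicit false

/-!
# Two odd variables and one value of a polynomial; one odd variable and many values of a polynomial
-/

namespace Pool.Agent.L0h57.PQ
open Finset Polynomial
open Pool.Agent.Helper602.MK (ee)
open Pool.Agent.Helper602.MK.N_J5b (ee_add ee_zero ee_conj norm_ee ee_int)

theorem cs {f : ℤ[X]} (hd : 1 ≤ f.natDegree) (hl : 0 < f.leadingCoeff) {a b : ℤ} (ha : a ≠ 0) (hb : b ≠ 0)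
    {O : ℕ → Finset ℕ} {g : ℕ → ℕ → ℝ} {D : ℝ} (h : Small O g D) (B : ℕ) (X : ℝ) (hX : 0 ≤ X) (ε : ℝ) (hε : 0 < ε) :
    ∃ N₀ : ℕ, ∀ N K : ℕ, N₀ ≤ N → N ≤ B * K ^ f.natDegree → ∀ x : ℕ → ℝ, (∀ m, |x m| ≤ X) → ∀ n : ℤ,
      |∑ m ∈ O N, x m * ∑ i ∈ O N ×ˢ Icc 1 K,
        if a * (i.1 : ℤ) + f.eval (i.2 : ℤ) = n - b * (m : ℤ) then g N i.1 else 0| ≤ ε * N * K := by
  classical
  obtain ⟨ε', hε', hε2⟩ : ∃ ε' : ℝ, 0 < ε' ∧ X ^ 2 * ε' ≤ ε ^ 2 := by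
    refine ⟨ε ^ 2 / (X ^ 2 + 1), by positivity, ?_⟩
    rw [mul_div_assoc', div_le_iff₀ (by positivity)]
    nlinarith [sq_nonneg ε]
  obtain ⟨N₀, hN₀⟩ := ms hd hl ha h B ε' hε'
  refine ⟨N₀, fun N K hN hNK x hx n => ?_⟩
  obtain ⟨R, hR⟩ : ∃ R : ℤ → ℝ, R = fun n => ∑ i ∈ O N ×ˢ Icc 1 K,
    if a * (i.1 : ℤ) + f.eval (i.2 : ℤ) = n then g N i.1 else 0 := ⟨_, rfl⟩
  have h1 := hN₀ N K hN hNK ((O N).image (fun m : ℕ => n - b * (m : ℤ)))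
  have h2 : ∑ n' ∈ (O N).image (fun m : ℕ => n - b * (m : ℤ)), R n' ^ 2 = ∑ m ∈ O N, R (n - b * (m : ℤ)) ^ 2 := by
    refine sum_image fun m _ m' _ hmm => ?_
    have h3 : b * (m : ℤ) = b * (m' : ℤ) := by
      have : n - b * (m : ℤ) = n - b * (m' : ℤ) := hmm
      omega
    exact_mod_cast mul_left_cancel₀ hb h3
  have h3 : ∑ m ∈ O N, R (n - b * (m : ℤ)) ^ 2 ≤ ε' * N * K ^ 2 := by
    rw [← h2, hR]
    exact h1
  have h4 : ∑ m ∈ O N, x m ^ 2 ≤ N * X ^ 2 := by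
    refine (sum_le_sum fun m _ => (by
      rw [← sq_abs]
      exact pow_le_pow_left₀ (abs_nonneg _) (hx m) 2 : x m ^ 2 ≤ X ^ 2)).trans ?_
    rw [sum_const, nsmul_eq_mul]
    apply mul_le_mul_of_nonneg_right _ (sq_nonneg _)
    have h5 := card_le_card (h.sub N)
    rw [Nat.card_Icc, Nat.add_sub_cancel] at h5
    exact_mod_cast h5
  have h5 : (∑ m ∈ O N, x m * R (n - b * (m : ℤ))) ^ 2 ≤ (ε * N * K) ^ 2 := by
    refine (sum_mul_sq_le_sq_mul_sq (O N) x (fun m => R (n - b * (m : ℤ)))).trans ?_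
    calc (∑ m ∈ O N, x m ^ 2) * ∑ m ∈ O N, R (n - b * (m : ℤ)) ^ 2 ≤ (N * X ^ 2) * (ε' * N * K ^ 2) :=
          mul_le_mul h4 h3 (sum_nonneg fun _ _ => sq_nonneg _) (by positivity)
      _ = (N ^ 2 * K ^ 2) * (X ^ 2 * ε') := by ring
      _ ≤ (N ^ 2 * K ^ 2) * ε ^ 2 := mul_le_mul_of_nonneg_left hε2 (by positivity)
      _ = _ := by ring
  have h6 := abs_le_of_sq_le_sq h5 (by positivity)
  rw [hR] at h6
  exact h6

theorem two {f : ℤ[X]} (hd : 1 ≤ f.natDegree) (hl : 0 < f.leadingCoeff) {a b : ℤ} (ha : a ≠ 0) (hb : b ≠ 0)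
    {O : ℕ → Finset ℕ} {W₁ W₂ : ℕ → ℕ → ℝ} {V₁ V₂ D₁ D₂ : ℝ} (h₁ : Small O (fun N m => W₁ N m - V₁) D₁)
    (h₂ : Small O (fun N m => W₂ N m - V₂) D₂) (B : ℕ) (ε : ℝ) (hε : 0 < ε) :
    ∃ N₀ : ℕ, ∀ N K : ℕ, N₀ ≤ N → N ≤ B * K ^ f.natDegree → ∀ n : ℤ,
      |∑ z ∈ (O N ×ˢ O N) ×ˢ Icc 1 K, if a * (z.1.1 : ℤ) + b * (z.1.2 : ℤ) + f.eval (z.2 : ℤ) = n then
        (W₁ N z.1.1 * W₂ N z.1.2 - V₁ * V₂) else 0| ≤ ε * N * K := by
  have hD : 0 ≤ D₂ := (abs_nonneg _).trans (h₂.bd 0 0)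
  obtain ⟨N₁, hN₁⟩ := cs hd hl ha hb h₁ B (D₂ + |V₂|) (by positivity) (ε / 2) (by positivity)
  obtain ⟨N₂, hN₂⟩ := cs hd hl hb ha h₂ B |V₁| (abs_nonneg _) (ε / 2) (by positivity)
  refine ⟨max N₁ N₂, fun N K hN hNK n => ?_⟩
  have g1 := hN₁ N K ((le_max_left _ _).trans hN) hNK (fun m => W₂ N m) (fun m => by
    have h3 := h₂.bd N m
    have h4 : W₂ N m = (W₂ N m - V₂) + V₂ := by ring
    rw [h4]
    exact (abs_add_le _ _).trans (add_le_add h3 le_rfl)) n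
  have g2 := hN₂ N K ((le_max_right _ _).trans hN) hNK (fun _ => V₁) (fun _ => le_rfl) n
  have g3 : ∑ z ∈ (O N ×ˢ O N) ×ˢ Icc 1 K, (if a * (z.1.1 : ℤ) + b * (z.1.2 : ℤ) + f.eval (z.2 : ℤ) = n then
        (W₁ N z.1.1 * W₂ N z.1.2 - V₁ * V₂) else 0) =
      ∑ m ∈ O N, W₂ N m * (∑ i ∈ O N ×ˢ Icc 1 K,
        if a * (i.1 : ℤ) + f.eval (i.2 : ℤ) = n - b * (m : ℤ) then (W₁ N i.1 - V₁) else 0) +
      ∑ m ∈ O N, V₁ * (∑ i ∈ O N ×ˢ Icc 1 K,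
        if b * (i.1 : ℤ) + f.eval (i.2 : ℤ) = n - a * (m : ℤ) then (W₂ N i.1 - V₂) else 0) := by
    simp_rw [sum_product, mul_sum]
    have e1 : ∑ m ∈ O N, ∑ i ∈ O N, ∑ k ∈ Icc 1 K, W₂ N m *
        (if a * (i : ℤ) + f.eval (k : ℤ) = n - b * (m : ℤ) then (W₁ N i - V₁) else 0) =
        ∑ i ∈ O N, ∑ m ∈ O N, ∑ k ∈ Icc 1 K, W₂ N m *
        (if a * (i : ℤ) + f.eval (k : ℤ) = n - b * (m : ℤ) then (W₁ N i - V₁) else 0) := sum_comm
    rw [e1, ← sum_add_distrib]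
    refine sum_congr rfl fun m₁ _ => ?_
    rw [← sum_add_distrib]
    refine sum_congr rfl fun m₂ _ => ?_
    rw [← sum_add_distrib]
    refine sum_congr rfl fun k _ => ?_
    by_cases hc : a * (m₁ : ℤ) + b * (m₂ : ℤ) + f.eval (k : ℤ) = n
    · rw [if_pos hc, if_pos (by omega), if_pos (by omega)]
      ring
    · rw [if_neg hc, if_neg (by omega), if_neg (by omega)]
      ring
  rw [g3]
  refine (abs_add_le _ _).trans ?_
  have g4 : ε * N * K = ε / 2 * N * K + ε / 2 * N * K := by ring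
  rw [g4]
  exact add_le_add g1 g2

theorem many {f : ℤ[X]} (hd : 1 ≤ f.natDegree) (hl : 0 < f.leadingCoeff) :
    ∃ t₀ : ℕ, ∀ t : ℕ, t₀ ≤ t → ∀ (a : ℤ) (O : ℕ → Finset ℕ) (g : ℕ → ℕ → ℝ) (D : ℝ), Small O g D →
      ∀ (B : ℕ) (ε : ℝ), 0 < ε → ∃ N₀ : ℕ, ∀ N K : ℕ, N₀ ≤ N → N ≤ B * K ^ f.natDegree → ∀ n : ℤ,
      |∑ i ∈ O N ×ˢ Fintype.piFinset (fun _ : Fin t => Icc 1 K),
        if a * (i.1 : ℤ) + ∑ j, f.eval (i.2 j : ℤ) = n then g N i.1 else 0| ≤ ε * K ^ t := by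
  obtain ⟨p, hp, hmom⟩ := weyl_moment f hd hl
  obtain ⟨A, hA⟩ := eval_bd f
  refine ⟨p, fun t ht a O g D h B ε hε => ?_⟩
  obtain ⟨B', hB'⟩ : ∃ B' : ℕ, B' = B + 2 * (a.natAbs * B + t * A) + 1 := ⟨_, rfl⟩
  obtain ⟨C, hC0, hC⟩ := hmom B' (by omega)
  obtain ⟨N₁, hN₁⟩ := h.small (ε / C) (by positivity)
  refine ⟨max N₁ 1, fun N K hN hNK n => ?_⟩
  have hN1 : 1 ≤ N := (le_max_right _ _).trans hN
  have hNr : (0 : ℝ) < N := by exact_mod_cast hN1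
  have hK1 : 1 ≤ K := by
    rcases Nat.eq_zero_or_pos K with h0 | h0
    · rw [h0, zero_pow (by omega)] at hNK
      omega
    · exact h0
  have hKr : (0 : ℝ) < K := by exact_mod_cast hK1
  obtain ⟨M, hM⟩ : ∃ M : ℕ, M = B' * K ^ f.natDegree := ⟨_, rfl⟩
  have hKd : 1 ≤ K ^ f.natDegree := Nat.one_le_pow _ _ hK1
  have hM1 : 1 ≤ M := by
    rw [hM]
    exact Nat.mul_pos (by omega) hKd
  have hMr : (0 : ℝ) < M := by exact_mod_cast hM1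
  have hNM : N ≤ M := by
    rw [hM]
    exact hNK.trans (Nat.mul_le_mul_right _ (by omega))
  have hNMr : (N : ℝ) ≤ M := by exact_mod_cast hNM
  obtain ⟨L, hL⟩ : ∃ L : ℤ, L = |a| * (B * (K : ℤ) ^ f.natDegree) + t * (A * (K : ℤ) ^ f.natDegree) := ⟨_, rfl⟩
  have hM' : (M : ℤ) = B * (K : ℤ) ^ f.natDegree + 2 * L + (K : ℤ) ^ f.natDegree := by
    rw [hM, hB', hL]
    push_cast
    ring
  have hKdz : (1 : ℤ) ≤ (K : ℤ) ^ f.natDegree := by exact_mod_cast hKd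
  have hNKz : (N : ℤ) ≤ B * (K : ℤ) ^ f.natDegree := by exact_mod_cast hNK
  obtain ⟨I, hI⟩ : ∃ I : Finset (ℕ × (Fin t → ℕ)), I = O N ×ˢ Fintype.piFinset (fun _ : Fin t => Icc 1 K) :=
    ⟨_, rfl⟩
  rw [← hI]
  have hrange : ∀ i ∈ I, |a * (i.1 : ℤ) + ∑ j, f.eval (i.2 j : ℤ)| ≤ L := by
    intro i hi
    rw [hI, mem_product, Fintype.mem_piFinset] at hi
    have hi1 := mem_Icc.1 (h.sub N hi.1)
    have g1 : |a * (i.1 : ℤ)| ≤ |a| * (B * (K : ℤ) ^ f.natDegree) := by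
      rw [abs_mul]
      apply mul_le_mul_of_nonneg_left _ (abs_nonneg _)
      rw [abs_le]
      constructor <;> omega
    have g2 : |∑ j, f.eval (i.2 j : ℤ)| ≤ t * (A * (K : ℤ) ^ f.natDegree) := by
      refine (abs_sum_le_sum_abs _ _).trans ?_
      refine (sum_le_sum fun j _ => hA (i.2 j) K (mem_Icc.1 (hi.2 j)).1 (mem_Icc.1 (hi.2 j)).2).trans ?_
      rw [sum_const, card_univ, Fintype.card_fin, nsmul_eq_mul]
    rw [hL]
    exact (abs_add_le _ _).trans (add_le_add g1 g2)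
  by_cases hn : |n| ≤ L
  swap
  · rw [sum_eq_zero fun i hi => ?_, abs_zero]
    · positivity
    · rw [if_neg]
      intro h1
      apply hn
      rw [← h1]
      exact hrange i hi
  obtain ⟨G, hG⟩ : ∃ G : ℕ → ℂ, G = fun τ : ℕ => ∑ m ∈ O N, (g N m : ℂ) * ee ((τ : ℝ) * ((a * (m : ℤ) : ℤ) : ℝ) / M) :=
    ⟨_, rfl⟩
  have hGe : ∀ τ : ℕ, ‖G τ‖ ≤ ε / C * N := by
    intro τ
    have h1 := hN₁ N ((le_max_left _ _).trans hN) ((τ : ℝ) * a / M)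
    have h2 : G τ = ∑ m ∈ O N, (g N m : ℂ) * ee ((τ : ℝ) * a / M * m) := by
      rw [hG]
      refine sum_congr rfl fun m _ => ?_
      congr 2
      push_cast
      ring
    rw [h2]
    exact h1
  have e4 : ∀ τ : ℕ, ∑ i ∈ I, (g N i.1 : ℂ) *
      ee ((τ : ℝ) * ((a * (i.1 : ℤ) + ∑ j, f.eval (i.2 j : ℤ) - n : ℤ) : ℝ) / M) =
      ee (-((τ : ℝ) * n / M)) * (G τ * Fs f K τ M ^ t) := by
    intro τ
    have h5 : Fs f K τ M ^ t = ∑ q ∈ Fintype.piFinset (fun _ : Fin t => Icc 1 K),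
        ∏ j, ee ((τ : ℝ) * ((f.eval (q j : ℤ) : ℤ) : ℝ) / M) := by
      unfold Fs
      exact sum_pow' _ _ _
    rw [h5, hG, sum_mul_sum, mul_sum, hI, sum_product]
    refine sum_congr rfl fun m _ => ?_
    rw [mul_sum]
    refine sum_congr rfl fun q _ => ?_
    have h6 : ∏ j, ee ((τ : ℝ) * ((f.eval (q j : ℤ) : ℤ) : ℝ) / M) =
        ee ((τ : ℝ) * ((∑ j, f.eval (q j : ℤ) : ℤ) : ℝ) / M) := by
      have key : ∀ s : Finset (Fin t), ∏ j ∈ s, ee ((τ : ℝ) * ((f.eval (q j : ℤ) : ℤ) : ℝ) / M) =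
          ee ((τ : ℝ) * ((∑ j ∈ s, f.eval (q j : ℤ) : ℤ) : ℝ) / M) := by
        intro s
        classical
        induction s using Finset.induction_on with
        | empty => simp [ee_zero]
        | insert j s hj ih =>
          rw [prod_insert hj, ih, ← ee_add, sum_insert hj]
          congr 1
          push_cast
          ring
      exact key univ
    have h7 : ee ((τ : ℝ) * ((a * (m : ℤ) + ∑ j, f.eval (q j : ℤ) - n : ℤ) : ℝ) / M) =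
        ee ((τ : ℝ) * ((a * (m : ℤ) : ℤ) : ℝ) / M) * ee ((τ : ℝ) * ((∑ j, f.eval (q j : ℤ) : ℤ) : ℝ) / M) *
          ee (-((τ : ℝ) * n / M)) := by
      rw [← ee_add, ← ee_add]
      congr 1
      push_cast
      ring
    rw [h6, h7]
    ring
  have e5 : ((M * ∑ i ∈ I, (if a * (i.1 : ℤ) + ∑ j, f.eval (i.2 j : ℤ) = n then g N i.1 else 0) : ℝ) : ℂ) =
      ∑ τ ∈ range M, ee (-((τ : ℝ) * n / M)) * (G τ * Fs f K τ M ^ t) := by
    rw [← sum_congr rfl fun τ _ => e4 τ, sum_comm, Complex.ofReal_mul, Complex.ofReal_sum, mul_sum]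
    refine sum_congr rfl fun i hi => ?_
    rw [← mul_sum, Pool.Agent.Helper602.MK.N_J7.orth M hM1 (a * (i.1 : ℤ) + ∑ j, f.eval (i.2 j : ℤ) - n) ?_]
    · by_cases hc : a * (i.1 : ℤ) + ∑ j, f.eval (i.2 j : ℤ) = n
      · rw [if_pos hc, if_pos (by omega)]
        push_cast
        ring
      · rw [if_neg hc, if_neg (by omega)]
        simp
    · have h8 := hrange i hi
      have h9 := abs_sub (a * (i.1 : ℤ) + ∑ j, f.eval (i.2 j : ℤ)) n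
      have g7 : 0 ≤ (B : ℤ) * (K : ℤ) ^ f.natDegree := by positivity
      omega
  have hmm := hC K M hK1 hM1 hM.le
  have e6 : (M : ℝ) * |∑ i ∈ I, (if a * (i.1 : ℤ) + ∑ j, f.eval (i.2 j : ℤ) = n then g N i.1 else 0)| ≤
      M * (ε * K ^ t) := by
    have h1 := congrArg norm e5
    rw [Complex.norm_real, Real.norm_eq_abs, abs_mul, abs_of_pos hMr] at h1
    rw [h1]
    refine (norm_sum_le _ _).trans ?_
    have h2 : ∀ τ ∈ range M, ‖ee (-((τ : ℝ) * n / M)) * (G τ * Fs f K τ M ^ t)‖ ≤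
        (ε / C * N * K ^ t) * (‖∑ n ∈ Icc 1 K, ee ((τ : ℝ) * ((f.eval (n : ℤ) : ℤ) : ℝ) / M)‖ / K) ^ p := by
      intro τ _
      rw [norm_mul, norm_mul, norm_pow, norm_ee, one_mul]
      have h3 : ‖Fs f K τ M‖ / K ≤ 1 := by
        rw [div_le_iff₀ hKr, one_mul]
        exact Fs_le f K τ M
      have h4 : (‖Fs f K τ M‖ / K) ^ t ≤ (‖Fs f K τ M‖ / K) ^ p := pow_le_pow_of_le_one (by positivity) h3 ht
      have h5 : ‖Fs f K τ M‖ ^ t = K ^ t * (‖Fs f K τ M‖ / K) ^ t := by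
        rw [div_pow]
        field_simp
      rw [h5]
      calc ‖G τ‖ * (K ^ t * (‖Fs f K τ M‖ / K) ^ t) ≤ (ε / C * N) * (K ^ t * (‖Fs f K τ M‖ / K) ^ p) := by
            apply mul_le_mul (hGe τ) _ (by positivity) (by positivity)
            exact mul_le_mul_of_nonneg_left h4 (by positivity)
        _ = _ := by
            unfold Fs
            ring
    refine (sum_le_sum h2).trans ?_
    rw [← mul_sum]
    calc ε / C * N * K ^ t * ∑ τ ∈ range M, (‖∑ n ∈ Icc 1 K, ee ((τ : ℝ) * ((f.eval (n : ℤ) : ℤ) : ℝ) / M)‖ / K) ^ p ≤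
          ε / C * N * K ^ t * C := mul_le_mul_of_nonneg_left hmm (by positivity)
      _ = N * (ε * K ^ t) := by field_simp
      _ ≤ M * (ε * K ^ t) := mul_le_mul_of_nonneg_right hNMr (by positivity)
  exact le_of_mul_le_mul_left e6 hMr

end Pool.Agent.L0h57.PQ
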