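import Pool.Agent.H373R2.NB.WeylSum

set_option autoImplicit false

/-!
# Moments of Weyl sums: the start results `count_large` and `weyl_moment` of `Pool.Agent.H373R2.NB`, with the exponent
chosen before the constant `B` (same proof)
-/

namespace Pool.Agent.L0h57.PQ
open Finset Polynomial
open Pool.Agent.Helper602.MK (ee)
open Pool.Agent.Helper602.MK.N_J5b (ee_add ee_zero ee_conj norm_ee ee_int)
open Pool.Agent.H373R2.NB (Ph_succ Ph_poly IW_all sum_Icc_one sort_sum)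

/-- number of frequencies with a large Weyl sum -/
theorem count_large (f : ℤ[X]) (hd : 1 ≤ f.natDegree) (hl : 0 < f.leadingCoeff) :
    ∃ m : ℕ, 1 ≤ m ∧ ∀ B : ℕ, 1 ≤ B → ∃ K : ℕ, 1 ≤ K ∧ ∀ x M : ℕ, 1 ≤ x → 1 ≤ M → M ≤ B * x ^ f.natDegree → ∀ u : ℝ, 1 ≤ u →
      (#((range M).filter (fun t : ℕ => (x : ℝ) ≤ u * ‖∑ n ∈ Icc 1 x, ee ((t : ℝ) * ((f.eval (n : ℤ) : ℤ) : ℝ) / M)‖)) : ℝ) ≤
        K * u ^ m := by
  set d := f.natDegree with hdd
  obtain ⟨c, m, hc, hI⟩ := IW_all d hd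
  obtain ⟨lc, hlc⟩ : ∃ lc : ℕ, f.leadingCoeff = lc := ⟨f.leadingCoeff.toNat, (Int.toNat_of_nonneg hl.le).symm⟩
  have hlc1 : 1 ≤ lc := by
    rw [hlc] at hl; exact_mod_cast hl
  set A₀ : ℕ := d.factorial * lc with hA₀
  have hA1 : 1 ≤ A₀ := Nat.mul_pos (Nat.factorial_pos d) hlc1
  refine ⟨3 * m + 1, by omega, fun B hB => ⟨9 * (A₀ + 1) * B * c ^ 3, ?_, ?_⟩⟩
  · have : 0 < 9 * (A₀ + 1) * B * c ^ 3 := by positivity
    exact this
  intro x M hx hM hMx u hu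
  have hx0 : (0 : ℝ) < x := by exact_mod_cast hx
  have hM0 : (0 : ℝ) < M := by exact_mod_cast hM
  set E : ℝ := c * u ^ m with hE
  have hc1 : (1 : ℝ) ≤ c := by exact_mod_cast hc
  have hE1 : 1 ≤ E := one_le_mul_of_one_le_of_one_le hc1 (one_le_pow₀ hu)
  have hA1r : (1 : ℝ) ≤ A₀ := by exact_mod_cast hA1
  have hB1r : (1 : ℝ) ≤ B := by exact_mod_cast hB
  set R : Finset (ℕ × ℤ × ℤ) := (Icc 1 ⌊E⌋₊) ×ˢ ((Icc (-(⌊E * (A₀ + 1)⌋₊ : ℤ)) ⌊E * (A₀ + 1)⌋₊) ×ˢ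
    (Icc (-(⌊E * B⌋₊ : ℤ)) ⌊E * B⌋₊)) with hR
  set Φ : ℕ × ℤ × ℤ → ℕ := fun v => ((v.2.1 * M + v.2.2) / ((v.1 : ℤ) * A₀)).toNat with hΦ
  have hsub : (range M).filter (fun t : ℕ => (x : ℝ) ≤ u * ‖∑ n ∈ Icc 1 x, ee ((t : ℝ) * ((f.eval (n : ℤ) : ℤ) : ℝ) / M)‖) ⊆
      R.image Φ := by
    intro t ht
    rw [mem_filter, mem_range] at ht
    obtain ⟨htM, ht⟩ := ht
    have htr : (t : ℝ) < M := by exact_mod_cast htM
    have hph := Ph_succ _ _ _ (Ph_poly d f le_rfl ((t : ℝ) / M))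
    have hsum : ∑ n ∈ Icc 1 x, ee ((t : ℝ) * ((f.eval (n : ℤ) : ℤ) : ℝ) / M) =
        ∑ n ∈ range x, ee ((fun n : ℕ => (fun n : ℕ => (t : ℝ) / M * ((f.eval (n : ℤ) : ℤ) : ℝ)) (n + 1)) n) := by
      rw [sum_Icc_one]
      apply sum_congr rfl
      intro n _
      congr 1
      ring
    rw [hsum] at ht
    obtain ⟨q, hq1, hq2, a, ha⟩ := hI x u _ _ hx hu hph ht
    have hcoef : f.coeff d = (lc : ℤ) := by rw [hdd, ← hlc]; rfl
    rw [hcoef] at ha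
    have hq0 : (0 : ℝ) < q := by exact_mod_cast hq1
    have e1 : (q : ℝ) * ((t : ℝ) / M * ((d.factorial : ℝ) * ((lc : ℤ) : ℝ))) = q * A₀ * t / M := by
      rw [hA₀]; push_cast; ring
    rw [e1, ← hE] at ha
    set e : ℤ := (q : ℤ) * A₀ * t - a * M with he
    have hx1 : (1 : ℝ) ≤ (x : ℝ) ^ d := one_le_pow₀ (by exact_mod_cast hx)
    have hMxr : (M : ℝ) ≤ B * (x : ℝ) ^ d := by exact_mod_cast hMx
    have heB : |(e : ℝ)| ≤ E * B := by
      have e2 : (e : ℝ) = (q * A₀ * t / M - a) * M := by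
        rw [he]; push_cast; field_simp
      rw [e2, abs_mul, abs_of_pos hM0]
      calc |(q : ℝ) * A₀ * t / M - a| * M ≤ (E / (x : ℝ) ^ d) * (B * (x : ℝ) ^ d) := by
            apply mul_le_mul ha hMxr hM0.le (by positivity)
        _ = E * B := by field_simp
    have haB : |(a : ℝ)| ≤ E * (A₀ + 1) := by
      have h1 : |(q : ℝ) * A₀ * t / M| ≤ E * A₀ := by
        rw [abs_of_nonneg (by positivity), div_le_iff₀ hM0]
        calc (q : ℝ) * A₀ * t ≤ E * A₀ * M := by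
              apply mul_le_mul _ htr.le (Nat.cast_nonneg _) (by positivity)
              exact mul_le_mul_of_nonneg_right hq2 (by positivity)
          _ = _ := by ring
      have h2 : E / (x : ℝ) ^ d ≤ E := div_le_self (by linarith) hx1
      calc |(a : ℝ)| = |(q : ℝ) * A₀ * t / M - ((q : ℝ) * A₀ * t / M - a)| := by congr 1; ring
        _ ≤ |(q : ℝ) * A₀ * t / M| + |(q : ℝ) * A₀ * t / M - a| := abs_sub _ _
        _ ≤ E * A₀ + E := add_le_add h1 (ha.trans h2)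
        _ = _ := by ring
    rw [mem_image]
    refine ⟨(q, a, e), ?_, ?_⟩
    · rw [hR, mem_product, mem_product, mem_Icc, mem_Icc, mem_Icc]
      have natfl : ∀ (z : ℤ) (r : ℝ), |(z : ℝ)| ≤ r → -(⌊r⌋₊ : ℤ) ≤ z ∧ z ≤ ⌊r⌋₊ := by
        intro z r hz
        have h1 : z.natAbs ≤ ⌊r⌋₊ := by
          apply Nat.le_floor
          rw [Nat.cast_natAbs, Int.cast_abs]
          exact hz
        omega
      exact ⟨⟨hq1, Nat.le_floor hq2⟩, natfl a _ haB, natfl e _ heB⟩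
    · simp only [hΦ]
      have h1 : a * M + e = (t : ℤ) * ((q : ℤ) * A₀) := by rw [he]; ring
      rw [h1, Int.mul_ediv_cancel]
      · exact Int.toNat_natCast t
      · have : 0 < q * A₀ := Nat.mul_pos hq1 hA1
        exact_mod_cast this.ne'
  have hcard : #(R.image Φ) ≤ ⌊E⌋₊ * ((2 * ⌊E * (A₀ + 1)⌋₊ + 1) * (2 * ⌊E * B⌋₊ + 1)) := by
    refine card_image_le.trans ?_
    rw [hR, card_product, card_product, Nat.card_Icc, Int.card_Icc, Int.card_Icc, Nat.add_sub_cancel]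
    apply Nat.mul_le_mul_left
    apply Nat.mul_le_mul
    · omega
    · omega
  calc _ ≤ ((⌊E⌋₊ * ((2 * ⌊E * (A₀ + 1)⌋₊ + 1) * (2 * ⌊E * B⌋₊ + 1)) : ℕ) : ℝ) := by
        exact_mod_cast (card_le_card hsub).trans hcard
    _ = (⌊E⌋₊ : ℝ) * ((2 * ⌊E * (A₀ + 1)⌋₊ + 1) * (2 * ⌊E * B⌋₊ + 1)) := by push_cast; ring
    _ ≤ E * ((3 * (E * (A₀ + 1))) * (3 * (E * B))) := by
        have h1 : (⌊E⌋₊ : ℝ) ≤ E := Nat.floor_le (by linarith)
        have h2 : (⌊E * (A₀ + 1)⌋₊ : ℝ) ≤ E * (A₀ + 1) := Nat.floor_le (by positivity)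
        have h3 : (⌊E * B⌋₊ : ℝ) ≤ E * B := Nat.floor_le (by positivity)
        have h4 : 1 ≤ E * (A₀ + 1) := one_le_mul_of_one_le_of_one_le hE1 (by linarith)
        have h5 : 1 ≤ E * B := one_le_mul_of_one_le_of_one_le hE1 hB1r
        apply mul_le_mul h1 _ (by positivity) (by linarith)
        apply mul_le_mul (by linarith) (by linarith) (by positivity) (by positivity)
    _ = (9 * (A₀ + 1) * B * c ^ 3) * u ^ (3 * m) := by
        rw [hE, show 3 * m = m + m + m by ring, pow_add, pow_add]; ring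
    _ ≤ (9 * (A₀ + 1) * B * c ^ 3) * u ^ (3 * m + 1) := by
        apply mul_le_mul_of_nonneg_left _ (by positivity)
        exact pow_le_pow_right₀ hu (by omega)
    _ = _ := by push_cast; ring

/-- high moments of Weyl sums over the frequencies `t / M` -/
theorem weyl_moment (f : ℤ[X]) (hd : 1 ≤ f.natDegree) (hl : 0 < f.leadingCoeff) :
    ∃ p : ℕ, 1 ≤ p ∧ ∀ B : ℕ, 1 ≤ B → ∃ C : ℝ, 0 < C ∧ ∀ x M : ℕ, 1 ≤ x → 1 ≤ M → M ≤ B * x ^ f.natDegree →
      ∑ t ∈ range M, (‖∑ n ∈ Icc 1 x, ee ((t : ℝ) * ((f.eval (n : ℤ) : ℤ) : ℝ) / M)‖ / x) ^ p ≤ C := by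
  obtain ⟨m, hm, hcl⟩ := count_large f hd hl
  refine ⟨2 * m, by omega, fun B hB => ?_⟩
  obtain ⟨K, hK, hcount⟩ := hcl B hB
  have hK1 : (1 : ℝ) ≤ K := by exact_mod_cast hK
  have hs : Summable (fun n : ℕ => 1 / ((n : ℝ) + 1) ^ 2) := by
    have h1 : Summable (fun n : ℕ => 1 / (n : ℝ) ^ 2) := Real.summable_one_div_nat_pow.2 (by norm_num)
    have h2 := (summable_nat_add_iff 1).2 h1
    simpa using h2
  set S : ℝ := ∑' n : ℕ, 1 / ((n : ℝ) + 1) ^ 2 with hS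
  have hS0 : 0 < S := hs.tsum_pos (fun n => by positivity) 0 (by norm_num)
  refine ⟨K ^ 2 * S, by positivity, fun x M hx hM hMx => ?_⟩
  have hx0 : (0 : ℝ) < x := by exact_mod_cast hx
  set s : ℕ → ℝ := fun t => ‖∑ n ∈ Icc 1 x, ee ((t : ℝ) * ((f.eval (n : ℤ) : ℤ) : ℝ) / M)‖ / x with hs'
  have hs0 : ∀ t, 0 ≤ s t := fun t => by simp only [hs']; positivity
  have hs1 : ∀ t, s t ≤ 1 := by
    intro t
    simp only [hs']
    rw [div_le_one hx0]
    calc ‖∑ n ∈ Icc 1 x, ee ((t : ℝ) * ((f.eval (n : ℤ) : ℤ) : ℝ) / M)‖ ≤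
        ∑ n ∈ Icc 1 x, ‖ee ((t : ℝ) * ((f.eval (n : ℤ) : ℤ) : ℝ) / M)‖ := norm_sum_le _ _
      _ = x := by simp [norm_ee]
  have hsort := sort_sum (fun t => s t ^ (2 * m)) (range M) (fun n => (K : ℝ) ^ 2 * (1 / (n : ℝ) ^ 2)) (by
    intro X hX hXne
    obtain ⟨t, ht, hmin⟩ := exists_min_image X s hXne
    refine ⟨t, ht, ?_⟩
    have hn0 : (0 : ℝ) < #X := by exact_mod_cast card_pos.2 hXne
    rcases (hs0 t).eq_or_lt with h0 | h0
    · rw [← h0, zero_pow (by omega)]; positivity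
    · have h1 : 1 ≤ 1 / s t := by rw [le_div_iff₀ h0]; linarith [hs1 t]
      have h2 := hcount x M hx hM hMx (1 / s t) h1
      have h3 : X ⊆ (range M).filter (fun t' : ℕ => (x : ℝ) ≤ (1 / s t) *
          ‖∑ n ∈ Icc 1 x, ee ((t' : ℝ) * ((f.eval (n : ℤ) : ℤ) : ℝ) / M)‖) := by
        intro t' ht'
        rw [mem_filter]
        refine ⟨hX ht', ?_⟩
        have h4 := hmin t' ht'
        have h5 : ‖∑ n ∈ Icc 1 x, ee ((t' : ℝ) * ((f.eval (n : ℤ) : ℤ) : ℝ) / M)‖ = s t' * x := by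
          simp only [hs']; field_simp
        rw [h5, one_div, ← mul_assoc, inv_mul_eq_div]
        have h6 : 1 ≤ s t' / s t := by rw [le_div_iff₀ h0, one_mul]; exact h4
        nlinarith
      have h4 : (#X : ℝ) ≤ K * (1 / s t) ^ m := le_trans (by exact_mod_cast card_le_card h3) h2
      have h5 : s t ^ m ≤ K / #X := by
        rw [le_div_iff₀ hn0]
        rw [one_div, inv_pow, ← div_eq_mul_inv, le_div_iff₀ (by positivity)] at h4
        linarith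
      calc s t ^ (2 * m) = (s t ^ m) ^ 2 := by rw [← pow_mul, mul_comm]
        _ ≤ (K / #X) ^ 2 := pow_le_pow_left₀ (by positivity) h5 2
        _ = _ := by rw [div_pow]; ring)
  refine hsort.trans ?_
  rw [← mul_sum]
  apply mul_le_mul_of_nonneg_left _ (by positivity)
  push_cast
  exact hs.sum_le_tsum _ (fun n _ => by positivity)

end Pool.Agent.L0h57.PQ
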